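import Pool.Agent.RTO.Exact
import Pool.Agent.RTO.PolyE

/-!
# Orientations of mixed graphs minimising the round trip: exact solution in polynomial time if the
lengths are natural numbers bounded by a number given in unary (in particular unweighted graphs)
-/

namespace Pool.Agent.RTO.Variants.UnaryLengths

open Pool.Agent.TM2Lib Pool.Agent.M3 Pool.Agent.RTO

/-- The bit string coding an object (see `Enc`: `Un` is a natural number in unary; a natural number
is the list of its binary digits, an integer the pair of its sign and its absolute value, a
rational number the pair of its numerator and its denominator, a list is a right-nested pair, and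
the resulting binary tree is written in prefix code). -/
def code {α : Type} [Enc α] (a : α) : List Bool := D.encD (enc a)

/-- `f` is computable in polynomial time (by a Turing machine, in the length of the code of the
input), inputs being coded by `ca` and outputs by `cb`. -/
def PolyTime {α β : Type} (ca : α → List Bool) (cb : β → List Bool) (f : α → β) : Prop :=
  Nonempty (Turing.TM2ComputableInPolyTime ca cb f)

/-- Some polynomial time function `f`, given a natural number `L` in unary, a mixed graph `G` whose
lengths are natural numbers at most `L`, and two vertices `s, t`, outputs an orientation of `G`
whose round-trip length is minimum over all orientations. -/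
theorem result :
    ∃ f : Un × (MixedGraph × (ℕ × ℕ)) → List Bool, PolyTime code code f ∧
      ∀ (L : ℕ) (G : MixedGraph) (s t : ℕ), BoundedBy G L →
        (f (⟨L⟩, (G, (s, t)))).length = G.2.length ∧
        ∀ τ : List Bool, τ.length = G.2.length →
          roundTrip G (f (⟨L⟩, (G, (s, t)))) s t ≤ roundTrip G τ s t :=
  ⟨fun x => exactAlg x.1.n x.2.1 x.2.2.1 x.2.2.2,
    Comp.to_tm (ea := code) (eb := code) poly_exactAlg,
    fun L G s t hG => exactAlg_correct L G s t hG⟩

end Pool.Agent.RTO.Variants.UnaryLengths
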